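import Pool.Agent.Work.MP_7cb3ca_co.C3.Fast
import Pool.Agent.Work.MP_7cb3ca_co.I3.A

namespace Pool.Agent.Work.MP_7cb3ca_co.I3
open C3
set_option maxRecDepth 100000

def tp0_0 : PLift (chkPs3 par 0 0 = true) := ⟨by decide +kernel⟩
def tw0_0 : PLift (chkW3 par 0 0 = true) := ⟨by decide +kernel⟩
def tp0_1 : PLift (chkPs3 par 0 1 = true) := ⟨by decide +kernel⟩
def tw0_1 : PLift (chkW3 par 0 1 = true) := ⟨by decide +kernel⟩
def tp0_2 : PLift (chkPs3 par 0 2 = true) := ⟨by decide +kernel⟩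
def tw0_2 : PLift (chkW3 par 0 2 = true) := ⟨by decide +kernel⟩
def tp0_3 : PLift (chkPs3 par 0 3 = true) := ⟨by decide +kernel⟩
def tw0_3 : PLift (chkW3 par 0 3 = true) := ⟨by decide +kernel⟩
def tp0_4 : PLift (chkPs3 par 0 4 = true) := ⟨by decide +kernel⟩
def tw0_4 : PLift (chkW3 par 0 4 = true) := ⟨by decide +kernel⟩
def tp0_5 : PLift (chkPs3 par 0 5 = true) := ⟨by decide +kernel⟩
def tw0_5 : PLift (chkW3 par 0 5 = true) := ⟨by decide +kernel⟩
def tp0_6 : PLift (chkPs3 par 0 6 = true) := ⟨by decide +kernel⟩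
def tw0_6 : PLift (chkW3 par 0 6 = true) := ⟨by decide +kernel⟩
def tp0_7 : PLift (chkPs3 par 0 7 = true) := ⟨by decide +kernel⟩
def tw0_7 : PLift (chkW3 par 0 7 = true) := ⟨by decide +kernel⟩
def tp0_8 : PLift (chkPs3 par 0 8 = true) := ⟨by decide +kernel⟩
def tw0_8 : PLift (chkW3 par 0 8 = true) := ⟨by decide +kernel⟩
def tp0_9 : PLift (chkPs3 par 0 9 = true) := ⟨by decide +kernel⟩
def tw0_9 : PLift (chkW3 par 0 9 = true) := ⟨by decide +kernel⟩
def td0 : PLift (chkD3 par 0 = true) := ⟨by decide +kernel⟩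
def td2 : PLift (chkD3 par 2 = true) := ⟨by decide +kernel⟩
def td4 : PLift (chkD3 par 4 = true) := ⟨by decide +kernel⟩
def td6 : PLift (chkD3 par 6 = true) := ⟨by decide +kernel⟩
def td8 : PLift (chkD3 par 8 = true) := ⟨by decide +kernel⟩

end Pool.Agent.Work.MP_7cb3ca_co.I3
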