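import Pool.Agent.Work.MP_7cb3ca_co.C3.Fast
import Pool.Agent.Work.MP_7cb3ca_co.I3.A

namespace Pool.Agent.Work.MP_7cb3ca_co.I3
open C3
set_option maxRecDepth 100000

def tp1_0 : PLift (chkPs3 par 1 0 = true) := ⟨by decide +kernel⟩
def tw1_0 : PLift (chkW3 par 1 0 = true) := ⟨by decide +kernel⟩
def tp1_1 : PLift (chkPs3 par 1 1 = true) := ⟨by decide +kernel⟩
def tw1_1 : PLift (chkW3 par 1 1 = true) := ⟨by decide +kernel⟩
def tp1_2 : PLift (chkPs3 par 1 2 = true) := ⟨by decide +kernel⟩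
def tw1_2 : PLift (chkW3 par 1 2 = true) := ⟨by decide +kernel⟩
def tp1_3 : PLift (chkPs3 par 1 3 = true) := ⟨by decide +kernel⟩
def tw1_3 : PLift (chkW3 par 1 3 = true) := ⟨by decide +kernel⟩
def tp1_4 : PLift (chkPs3 par 1 4 = true) := ⟨by decide +kernel⟩
def tw1_4 : PLift (chkW3 par 1 4 = true) := ⟨by decide +kernel⟩
def tp1_5 : PLift (chkPs3 par 1 5 = true) := ⟨by decide +kernel⟩
def tw1_5 : PLift (chkW3 par 1 5 = true) := ⟨by decide +kernel⟩
def tp1_6 : PLift (chkPs3 par 1 6 = true) := ⟨by decide +kernel⟩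
def tw1_6 : PLift (chkW3 par 1 6 = true) := ⟨by decide +kernel⟩
def tp1_7 : PLift (chkPs3 par 1 7 = true) := ⟨by decide +kernel⟩
def tw1_7 : PLift (chkW3 par 1 7 = true) := ⟨by decide +kernel⟩
def tp1_8 : PLift (chkPs3 par 1 8 = true) := ⟨by decide +kernel⟩
def tw1_8 : PLift (chkW3 par 1 8 = true) := ⟨by decide +kernel⟩
def tp1_9 : PLift (chkPs3 par 1 9 = true) := ⟨by decide +kernel⟩
def tw1_9 : PLift (chkW3 par 1 9 = true) := ⟨by decide +kernel⟩
def td1 : PLift (chkD3 par 1 = true) := ⟨by decide +kernel⟩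
def td3 : PLift (chkD3 par 3 = true) := ⟨by decide +kernel⟩
def td5 : PLift (chkD3 par 5 = true) := ⟨by decide +kernel⟩
def td7 : PLift (chkD3 par 7 = true) := ⟨by decide +kernel⟩
def ts : PLift (chkS3 par = true) := ⟨by decide +kernel⟩

end Pool.Agent.Work.MP_7cb3ca_co.I3
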