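import Pool.Agent.Work.MP_7cb3ca_co.Fn.LaneM
import Pool.Agent.Work.MP_7cb3ca_co.C3.FastS
import Pool.Agent.Work.MP_7cb3ca_co.I3.K0
import Pool.Agent.Work.MP_7cb3ca_co.I3.K1
import Pool.Agent.Work.MP_7cb3ca_co.I3.K2
import Pool.Agent.Work.MP_7cb3ca_co.I3.KT0
import Pool.Agent.Work.MP_7cb3ca_co.I3.KT1
import Pool.Agent.Work.MP_7cb3ca_co.I3.KL

namespace Pool.Agent.Work.MP_7cb3ca_co.I3
open C3
set_option maxRecDepth 100000

theorem cov0_1 : CovA par 0 221361491834468040704 :=
  CovA.stepX p40.down <|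
  CovA.stepX p41.down <|
  CovA.stepX p42.down <|
  CovA.stepX p43.down <|
  CovA.stepX p44.down <|
  CovA.stepX p45.down <|
  CovA.stepX p46.down <|
  CovA.stepX p47.down <|
  CovA.stepX p48.down <|
  CovA.stepX p49.down <|
  CovA.stepX p50.down <|
  CovA.stepX p51.down <|
  CovA.stepX p52.down <|
  CovA.stepX p53.down <|
  CovA.stepX p54.down <|
  CovA.stepX p55.down <|
  CovA.stepX p56.down <|
  CovA.stepX p57.down <|
  CovA.nil

theorem cov0 : CovA par 0 0 :=
  CovA.stepX p0.down <|
  CovA.stepX p1.down <|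
  CovA.stepX p2.down <|
  CovA.stepX p3.down <|
  CovA.stepX p4.down <|
  CovA.stepX p5.down <|
  CovA.stepX p6.down <|
  CovA.stepX p7.down <|
  CovA.stepX p8.down <|
  CovA.stepX p9.down <|
  CovA.stepX p10.down <|
  CovA.stepX p11.down <|
  CovA.stepX p12.down <|
  CovA.stepX p13.down <|
  CovA.stepX p14.down <|
  CovA.stepX p15.down <|
  CovA.stepX p16.down <|
  CovA.stepX p17.down <|
  CovA.stepX p18.down <|
  CovA.stepX p19.down <|
  CovA.stepX p20.down <|
  CovA.stepX p21.down <|
  CovA.stepX p22.down <|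
  CovA.stepX p23.down <|
  CovA.stepX p24.down <|
  CovA.stepX p25.down <|
  CovA.stepX p26.down <|
  CovA.stepX p27.down <|
  CovA.stepX p28.down <|
  CovA.stepX p29.down <|
  CovA.stepX p30.down <|
  CovA.stepX p31.down <|
  CovA.stepX p32.down <|
  CovA.stepX p33.down <|
  CovA.stepX p34.down <|
  CovA.stepX p35.down <|
  CovA.stepX p36.down <|
  CovA.stepX p37.down <|
  CovA.stepX p38.down <|
  CovA.stepX p39.down <|
  cov0_1

theorem cov1_1 : CovA par 1 221432986478552547328 :=
  CovA.stepX p98.down <|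
  CovA.stepX p99.down <|
  CovA.stepX p100.down <|
  CovA.nil

theorem cov1 : CovA par 1 0 :=
  CovA.stepX p58.down <|
  CovA.stepX p59.down <|
  CovA.stepX p60.down <|
  CovA.stepX p61.down <|
  CovA.stepX p62.down <|
  CovA.stepX p63.down <|
  CovA.stepX p64.down <|
  CovA.stepX p65.down <|
  CovA.stepX p66.down <|
  CovA.stepX p67.down <|
  CovA.stepX p68.down <|
  CovA.stepX p69.down <|
  CovA.stepX p70.down <|
  CovA.stepX p71.down <|
  CovA.stepX p72.down <|
  CovA.stepX p73.down <|
  CovA.stepX p74.down <|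
  CovA.stepX p75.down <|
  CovA.stepX p76.down <|
  CovA.stepX p77.down <|
  CovA.stepX p78.down <|
  CovA.stepX p79.down <|
  CovA.stepX p80.down <|
  CovA.stepX p81.down <|
  CovA.stepX p82.down <|
  CovA.stepX p83.down <|
  CovA.stepX p84.down <|
  CovA.stepX p85.down <|
  CovA.stepX p86.down <|
  CovA.stepX p87.down <|
  CovA.stepX p88.down <|
  CovA.stepX p89.down <|
  CovA.stepX p90.down <|
  CovA.stepX p91.down <|
  CovA.stepX p92.down <|
  CovA.stepX p93.down <|
  CovA.stepX p94.down <|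
  CovA.stepX p95.down <|
  CovA.stepX p96.down <|
  CovA.stepX p97.down <|
  cov1_1

theorem cov2 : CovA par 2 0 :=
  CovA.stepX p101.down <|
  CovA.stepX p102.down <|
  CovA.stepX p103.down <|
  CovA.stepX p104.down <|
  CovA.stepX p105.down <|
  CovA.stepX p106.down <|
  CovA.stepX p107.down <|
  CovA.stepX p108.down <|
  CovA.stepX p109.down <|
  CovA.stepX p110.down <|
  CovA.stepX p111.down <|
  CovA.stepX p112.down <|
  CovA.stepX p113.down <|
  CovA.stepX p114.down <|
  CovA.stepX p115.down <|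
  CovA.stepX p116.down <|
  CovA.stepX p117.down <|
  CovA.stepX p118.down <|
  CovA.stepX p119.down <|
  CovA.stepX p120.down <|
  CovA.stepX p121.down <|
  CovA.stepX p122.down <|
  CovA.stepX p123.down <|
  CovA.stepX p124.down <|
  CovA.stepX p125.down <|
  CovA.stepX p126.down <|
  CovA.stepX p127.down <|
  CovA.stepX p128.down <|
  CovA.stepX p129.down <|
  CovA.stepX p130.down <|
  CovA.stepX p131.down <|
  CovA.stepX p132.down <|
  CovA.stepX p133.down <|
  CovA.stepX p134.down <|
  CovA.stepX p135.down <|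
  CovA.nil

theorem cov3 : CovA par 3 0 :=
  CovA.stepX p136.down <|
  CovA.stepX p137.down <|
  CovA.stepX p138.down <|
  CovA.stepX p139.down <|
  CovA.stepX p140.down <|
  CovA.stepX p141.down <|
  CovA.stepX p142.down <|
  CovA.stepX p143.down <|
  CovA.stepX p144.down <|
  CovA.stepX p145.down <|
  CovA.nil

theorem cov4 : CovA par 4 0 :=
  CovA.stepX p146.down <|
  CovA.stepX p147.down <|
  CovA.nil

theorem cov5 : CovA par 5 0 :=
  CovA.stepX p148.down <|
  CovA.nil

theorem cov6 : CovA par 6 0 :=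
  CovA.stepX p149.down <|
  CovA.nil

theorem cov7 : CovA par 7 0 :=
  CovA.stepX p150.down <|
  CovA.nil

theorem cov8 : CovA par 8 0 :=
  CovA.stepX p151.down <|
  CovA.nil

theorem cov9 : CovA par 9 0 :=
  CovA.stepX p152.down <|
  CovA.nil

theorem cov10 : CovA par 10 0 :=
  CovA.stepX p153.down <|
  CovA.stepX p154.down <|
  CovA.stepX p155.down <|
  CovA.stepX p156.down <|
  CovA.stepX p157.down <|
  CovA.stepX p158.down <|
  CovA.stepX p159.down <|
  CovA.stepX p160.down <|
  CovA.stepX p161.down <|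
  CovA.stepX p162.down <|
  CovA.stepX p163.down <|
  CovA.stepX p164.down <|
  CovA.stepX p165.down <|
  CovA.stepX p166.down <|
  CovA.stepX p167.down <|
  CovA.stepX p168.down <|
  CovA.stepX p169.down <|
  CovA.stepX p170.down <|
  CovA.stepX p171.down <|
  CovA.stepX p172.down <|
  CovA.stepX p173.down <|
  CovA.stepX p174.down <|
  CovA.nil

theorem cov11 : CovA par 11 0 :=
  CovA.stepX p175.down <|
  CovA.stepX p176.down <|
  CovA.stepX p177.down <|
  CovA.stepX p178.down <|
  CovA.stepX p179.down <|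
  CovA.stepX p180.down <|
  CovA.stepX p181.down <|
  CovA.stepX p182.down <|
  CovA.stepX p183.down <|
  CovA.stepX p184.down <|
  CovA.stepX p185.down <|
  CovA.nil

theorem cov12 : CovA par 12 0 :=
  CovA.stepX p186.down <|
  CovA.stepX p187.down <|
  CovA.stepX p188.down <|
  CovA.stepX p189.down <|
  CovA.stepX p190.down <|
  CovA.stepX p191.down <|
  CovA.stepX p192.down <|
  CovA.nil

theorem cov13 : CovA par 13 0 :=
  CovA.stepX p193.down <|
  CovA.stepX p194.down <|
  CovA.stepX p195.down <|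
  CovA.stepX p196.down <|
  CovA.stepX p197.down <|
  CovA.stepX p198.down <|
  CovA.stepX p199.down <|
  CovA.stepX p200.down <|
  CovA.stepX p201.down <|
  CovA.nil

theorem cov14 : CovA par 14 0 :=
  CovA.stepX p202.down <|
  CovA.nil

theorem cov15 : CovA par 15 0 :=
  CovA.stepX p203.down <|
  CovA.nil

theorem cov16 : CovA par 16 0 :=
  CovA.stepX p204.down <|
  CovA.nil

theorem cov17 : CovA par 17 0 :=
  CovA.stepX p205.down <|
  CovA.nil

theorem cov18 : CovA par 18 0 :=
  CovA.stepX p206.down <|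
  CovA.nil

theorem cov19 : CovA par 19 0 :=
  CovA.stepX p207.down <|
  CovA.nil

theorem cov20 : CovA par 20 0 :=
  CovA.stepX p208.down <|
  CovA.stepX p209.down <|
  CovA.stepX p210.down <|
  CovA.stepX p211.down <|
  CovA.stepX p212.down <|
  CovA.stepX p213.down <|
  CovA.stepX p214.down <|
  CovA.stepX p215.down <|
  CovA.stepX p216.down <|
  CovA.stepX p217.down <|
  CovA.stepX p218.down <|
  CovA.stepX p219.down <|
  CovA.stepX p220.down <|
  CovA.stepX p221.down <|
  CovA.stepX p222.down <|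
  CovA.stepX p223.down <|
  CovA.stepX p224.down <|
  CovA.stepX p225.down <|
  CovA.stepX p226.down <|
  CovA.stepX p227.down <|
  CovA.stepX p228.down <|
  CovA.nil

theorem cov21 : CovA par 21 0 :=
  CovA.stepX p229.down <|
  CovA.stepX p230.down <|
  CovA.stepX p231.down <|
  CovA.stepX p232.down <|
  CovA.stepX p233.down <|
  CovA.nil

theorem cov22 : CovA par 22 0 :=
  CovA.stepX p234.down <|
  CovA.stepX p235.down <|
  CovA.nil

theorem cov23 : CovA par 23 0 :=
  CovA.stepX p236.down <|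
  CovA.nil

theorem cov24 : CovA par 24 0 :=
  CovA.stepX p237.down <|
  CovA.nil

theorem cov25 : CovA par 25 0 :=
  CovA.stepX p238.down <|
  CovA.nil

theorem cov26 : CovA par 26 0 :=
  CovA.stepX p239.down <|
  CovA.nil

theorem cov27 : CovA par 27 0 :=
  CovA.stepX p240.down <|
  CovA.nil

theorem cov28 : CovA par 28 0 :=
  CovA.stepX p241.down <|
  CovA.nil

theorem cov29 : CovA par 29 0 :=
  CovA.stepX p242.down <|
  CovA.nil

theorem cov30 : CovA par 30 0 :=
  CovA.stepX p243.down <|
  CovA.nil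

theorem cov31 : CovA par 31 0 :=
  CovA.stepX p244.down <|
  CovA.nil

theorem cov32 : CovA par 32 0 :=
  CovA.stepX p245.down <|
  CovA.nil

theorem cov33 : CovA par 33 0 :=
  CovA.stepX p246.down <|
  CovA.nil

theorem cov34 : CovA par 34 0 :=
  CovA.stepX p247.down <|
  CovA.nil

theorem cov35 : CovA par 35 0 :=
  CovA.stepX p248.down <|
  CovA.nil

theorem cov36 : CovA par 36 0 :=
  CovA.stepX p249.down <|
  CovA.nil

theorem cov37 : CovA par 37 0 :=
  CovA.stepX p250.down <|
  CovA.nil

theorem cov38 : CovA par 38 0 :=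
  CovA.stepX p251.down <|
  CovA.nil

theorem cov39 : CovA par 39 0 :=
  CovA.stepX p252.down <|
  CovA.nil

theorem cov40 : CovA par 40 0 :=
  CovA.stepX p253.down <|
  CovA.nil

theorem cov41 : CovA par 41 0 :=
  CovA.stepX p254.down <|
  CovA.nil

theorem cov42 : CovA par 42 0 :=
  CovA.stepX p255.down <|
  CovA.nil

theorem cov43 : CovA par 43 0 :=
  CovA.stepX p256.down <|
  CovA.nil

theorem cov44 : CovA par 44 0 :=
  CovA.stepX p257.down <|
  CovA.nil

theorem cov45 : CovA par 45 0 :=
  CovA.stepX p258.down <|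
  CovA.nil

theorem cov46 : CovA par 46 0 :=
  CovA.stepX p259.down <|
  CovA.nil

theorem cov47 : CovA par 47 0 :=
  CovA.stepX p260.down <|
  CovA.nil

theorem cov48 : CovA par 48 0 :=
  CovA.stepX p261.down <|
  CovA.nil

theorem cov49 : CovA par 49 0 :=
  CovA.stepX p262.down <|
  CovA.nil

theorem cov50 : CovA par 50 0 :=
  CovA.stepX p263.down <|
  CovA.nil

theorem cov51 : CovA par 51 0 :=
  CovA.stepX p264.down <|
  CovA.nil

theorem cov52 : CovA par 52 0 :=
  CovA.stepX p265.down <|
  CovA.nil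

theorem cov53 : CovA par 53 0 :=
  CovA.stepX p266.down <|
  CovA.nil

theorem cov54 : CovA par 54 0 :=
  CovA.stepX p267.down <|
  CovA.nil

theorem cov55 : CovA par 55 0 :=
  CovA.stepX p268.down <|
  CovA.nil

theorem cov56 : CovA par 56 0 :=
  CovA.stepX p269.down <|
  CovA.nil

theorem cov57 : CovA par 57 0 :=
  CovA.stepX p270.down <|
  CovA.nil

theorem cov58 : CovA par 58 0 :=
  CovA.stepX p271.down <|
  CovA.nil

theorem cov59 : CovA par 59 0 :=
  CovA.stepX p272.down <|
  CovA.nil

theorem cov60 : CovA par 60 0 :=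
  CovA.stepX p273.down <|
  CovA.nil

theorem cov61 : CovA par 61 0 :=
  CovA.stepX p274.down <|
  CovA.nil

theorem cov62 : CovA par 62 0 :=
  CovA.stepX p275.down <|
  CovA.nil

theorem cov63 : CovA par 63 0 :=
  CovA.stepX p276.down <|
  CovA.nil

theorem cov64 : CovA par 64 0 :=
  CovA.stepX p277.down <|
  CovA.nil

theorem cov65 : CovA par 65 0 :=
  CovA.stepX p278.down <|
  CovA.nil

theorem cov66 : CovA par 66 0 :=
  CovA.stepX p279.down <|
  CovA.nil

theorem cov67 : CovA par 67 0 :=
  CovA.stepX p280.down <|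
  CovA.nil

theorem cov68 : CovA par 68 0 :=
  CovA.stepX p281.down <|
  CovA.nil

theorem cov69 : CovA par 69 0 :=
  CovA.stepX p282.down <|
  CovA.nil

theorem cov70 : CovA par 70 0 :=
  CovA.stepX p283.down <|
  CovA.nil

theorem cov71 : CovA par 71 0 :=
  CovA.stepX p284.down <|
  CovA.nil

theorem cov72 : CovA par 72 0 :=
  CovA.stepX p285.down <|
  CovA.nil

theorem cov73 : CovA par 73 0 :=
  CovA.stepX p286.down <|
  CovA.nil

theorem cov74 : CovA par 74 0 :=
  CovA.stepX p287.down <|
  CovA.nil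

theorem cov75 : CovA par 75 0 :=
  CovA.stepX p288.down <|
  CovA.nil

theorem cov76 : CovA par 76 0 :=
  CovA.stepX p289.down <|
  CovA.nil

theorem cov77 : CovA par 77 0 :=
  CovA.stepX p290.down <|
  CovA.nil

theorem cov78 : CovA par 78 0 :=
  CovA.stepX p291.down <|
  CovA.nil

theorem cov79 : CovA par 79 0 :=
  CovA.stepX p292.down <|
  CovA.nil

theorem cov80 : CovA par 80 0 :=
  CovA.stepX p293.down <|
  CovA.nil

theorem cov81 : CovA par 81 0 :=
  CovA.stepX p294.down <|
  CovA.nil

theorem cov82 : CovA par 82 0 :=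
  CovA.stepX p295.down <|
  CovA.nil

theorem cov83 : CovA par 83 0 :=
  CovA.stepX p296.down <|
  CovA.nil

theorem cov84 : CovA par 84 0 :=
  CovA.stepX p297.down <|
  CovA.nil

theorem cov85 : CovA par 85 0 :=
  CovA.stepX p298.down <|
  CovA.nil

theorem cov86 : CovA par 86 0 :=
  CovA.stepX p299.down <|
  CovA.nil

theorem cov87 : CovA par 87 0 :=
  CovA.stepX p300.down <|
  CovA.nil

theorem cov88 : CovA par 88 0 :=
  CovA.stepX p301.down <|
  CovA.nil

theorem cov89 : CovA par 89 0 :=
  CovA.stepX p302.down <|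
  CovA.nil

theorem cov : ∀ c < 90, CovA par c 0 := by
  intro c hc
  interval_cases c
  exacts [
    cov0, cov1, cov2, cov3, cov4, cov5, cov6, cov7, cov8, cov9, cov10, cov11, cov12, cov13,
    cov14, cov15, cov16, cov17, cov18, cov19, cov20, cov21, cov22, cov23, cov24, cov25, cov26,
    cov27, cov28, cov29, cov30, cov31, cov32, cov33, cov34, cov35, cov36, cov37, cov38, cov39,
    cov40, cov41, cov42, cov43, cov44, cov45, cov46, cov47, cov48, cov49, cov50, cov51, cov52,
    cov53, cov54, cov55, cov56, cov57, cov58, cov59, cov60, cov61, cov62, cov63, cov64, cov65,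
    cov66, cov67, cov68, cov69, cov70, cov71, cov72, cov73, cov74, cov75, cov76, cov77, cov78,
    cov79, cov80, cov81, cov82, cov83, cov84, cov85, cov86, cov87, cov88, cov89]

theorem tp : ∀ z < 2, ∀ cl < 10, chkPs3 par z cl = true := by
  intro z hz cl hc
  interval_cases z <;> interval_cases cl
  exacts [
    tp0_0.down, tp0_1.down, tp0_2.down, tp0_3.down, tp0_4.down, tp0_5.down, tp0_6.down,
    tp0_7.down, tp0_8.down, tp0_9.down, tp1_0.down, tp1_1.down, tp1_2.down, tp1_3.down,
    tp1_4.down, tp1_5.down, tp1_6.down, tp1_7.down, tp1_8.down, tp1_9.down]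

theorem tw : ∀ z < 2, ∀ cl < 10, chkW3 par z cl = true := by
  intro z hz cl hc
  interval_cases z <;> interval_cases cl
  exacts [
    tw0_0.down, tw0_1.down, tw0_2.down, tw0_3.down, tw0_4.down, tw0_5.down, tw0_6.down,
    tw0_7.down, tw0_8.down, tw0_9.down, tw1_0.down, tw1_1.down, tw1_2.down, tw1_3.down,
    tw1_4.down, tw1_5.down, tw1_6.down, tw1_7.down, tw1_8.down, tw1_9.down]

theorem td : ∀ e < 9, chkD3 par e = true := by
  intro e he
  interval_cases e
  exacts [
    td0.down, td1.down, td2.down, td3.down, td4.down, td5.down, td6.down, td7.down, td8.down]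

theorem cert : CertE par := ⟨⟨tp, tw, td, ts.down⟩, cov⟩

theorem inst : ∀ n, 22 ≤ n → ∀ L d, Fn.SH n 3 3 L d → Fn.Cyc n L :=
  Fn.LD.inst cert l0.down l1.down l2.down l3.down l4.down l5.down l6.down l7.down
    fun _ => le_rfl

end Pool.Agent.Work.MP_7cb3ca_co.I3
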